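import Mathlib
import Pool.Agent.X130.BD.Corr

set_option autoImplicit false

/-!
# Computing the broadcast dimension is NP-hard

In a graph with a universal vertex all distances are at most two, so values `f(v) > 1` are useless and
the broadcast dimension is the metric dimension (and the adjacency dimension). The reduction is from
vertex cover. Every vertex, every edge and two further indices get a pair of true twins, one of which has
to be used. The main vertex of an edge is adjacent to its twins and to the main vertices of its two ends;
hence it is told from the unused twin only by itself, by both twins, or by an end of the edge.
-/

namespace Pool.Agent.Results.MP_307b22_lc.BroadcastDimNPHard

open Pool.Agent.NPC Pool.Agent.X130.BD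

/-- The problem whether `bdim(G) ≤ k` for a given graph `G` and a given `k` is `NP`-hard. -/
theorem result : NPHardP BroadcastDim := hard

end Pool.Agent.Results.MP_307b22_lc.BroadcastDimNPHard
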